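import Pool.Agent.W918.MD.Cut

set_option autoImplicit false
set_option linter.all false

open MeasureTheory Set Metric
open scoped ContDiff

namespace W918.MD

open H459R3.NS W221.NS

noncomputable section

/-- difference of consecutive cut-offs -/
def dd (a : V) (s : ℝ) (n k : ℕ) (t : ℝ) (z : V) : ℝ :=
  eta a s k t z - (if k = n then 0 else eta a s (k + 1) t z)

/-- the kernel at the point `(a, s)` -/
def ker (a : V) (s : ℝ) (n : ℕ) (t : ℝ) (z : V) : ℝ := psi (rr n ^ 2 + s - t) (z - a)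

/-- the test functions -/
def phi (a : V) (s : ℝ) (n k : ℕ) (t : ℝ) (z : V) : ℝ := ker a s n t z * dd a s n k t z

theorem sum_dd (a : V) (s : ℝ) (n m : ℕ) (h : m ≤ n) (t : ℝ) (z : V) :
    ∑ k ∈ Finset.Icc m n, dd a s n k t z = eta a s m t z := by
  rw [← Finset.Ico_insert_right h, Finset.sum_insert (by simp)]
  have h1 : dd a s n n t z = eta a s n t z := by
    unfold dd
    rw [if_pos rfl, sub_zero]
  have h2 : ∑ k ∈ Finset.Ico m n, dd a s n k t z = ∑ k ∈ Finset.Ico m n, -(eta a s (k + 1) t z - eta a s k t z) := by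
    apply Finset.sum_congr rfl
    intro k hk
    rw [Finset.mem_Ico] at hk
    unfold dd
    rw [if_neg (by omega)]
    ring
  rw [h1, h2, Finset.sum_neg_distrib, Finset.sum_Ico_sub (fun k => eta a s k t z) h]
  ring

theorem sum_phi (a : V) (s : ℝ) (n m : ℕ) (h : m ≤ n) (t : ℝ) (z : V) :
    ∑ k ∈ Finset.Icc m n, phi a s n k t z = ker a s n t z * eta a s m t z := by
  unfold phi
  rw [← Finset.mul_sum, sum_dd a s n m h]

theorem ker_nonneg (a : V) (s : ℝ) (n : ℕ) (t : ℝ) (z : V) : 0 ≤ ker a s n t z := psi_nonneg _ _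

theorem abs_dd_le (a : V) (s : ℝ) (n k : ℕ) (t : ℝ) (z : V) : |dd a s n k t z| ≤ 1 := by
  have h1 := eta_nonneg a s k t z
  have h2 := eta_le_one a s k t z
  have h3 := eta_nonneg a s (k + 1) t z
  have h4 := eta_le_one a s (k + 1) t z
  unfold dd
  rw [abs_le]
  split_ifs <;> constructor <;> linarith

theorem smooth_dd (a : V) (s : ℝ) (n k : ℕ) : ContDiff ℝ ∞ (fun z : ℝ × V => dd a s n k z.1 z.2) := by
  unfold dd
  split_ifs
  · exact (smooth_eta a s k).sub contDiff_const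
  · exact (smooth_eta a s k).sub (smooth_eta a s (k + 1))

theorem smooth_dd_z (a : V) (s : ℝ) (n k : ℕ) (t : ℝ) : ContDiff ℝ ∞ (dd a s n k t) :=
  (smooth_dd a s n k).comp (contDiff_const.prodMk contDiff_id)

/-- outside the region the function vanishes near the point -/
theorem dd_ev (a : V) (s : ℝ) (n k : ℕ) (hk : k ≤ n) (t : ℝ) (ht : t ≤ s) (z : V)
    (h : ¬ (rr (k + 2) ^ 2 ≤ rr n ^ 2 + s - t ∨ rr (k + 2) ≤ ‖z - a‖)) :
    dd a s n k t =ᶠ[nhds z] fun _ => 0 := by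
  rw [not_or, not_le, not_le] at h
  obtain ⟨h1, h2⟩ := h
  have hkn : k ≠ n := by
    rintro rfl
    have h3 : rr (k + 2) ≤ rr k := rr_anti (by omega)
    have h4 := rr_pos (k + 2)
    have h5 : rr (k + 2) ^ 2 ≤ rr k ^ 2 := pow_le_pow_left₀ h4.le h3 2
    linarith
  have hopen : {y : V | ‖y - a‖ < rr (k + 2)} ∈ nhds z :=
    (isOpen_lt (continuous_norm.comp (continuous_id.sub continuous_const)) continuous_const).mem_nhds h2
  filter_upwards [hopen] with y hy
  have hy' : ‖y - a‖ < rr (k + 2) := hy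
  unfold dd
  rw [if_neg hkn]
  have h5 := rr_pos n
  have h6 : rr (k + 2) ≤ rr (k + 1) := rr_anti (by omega)
  have h7 := rr_pos (k + 2)
  have h8 : rr (k + 2) ^ 2 ≤ rr (k + 1) ^ 2 := pow_le_pow_left₀ h7.le h6 2
  have h9 : 0 < rr n ^ 2 := by positivity
  rw [eta_one a s k t y (by linarith) (by linarith), eta_one a s (k + 1) t y (by linarith) (by linarith)]
  ring

theorem pd_dd_le (a : V) (s : ℝ) (n k : ℕ) (t : ℝ) (z : V) (j : Fin 3) (C : ℝ) (hC : 0 ≤ C)
    (hb : ∀ x j, |pd j (bmp : V → ℝ) x| ≤ C ∧ |pd j (pd j (bmp : V → ℝ)) x| ≤ C) :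
    |pd j (dd a s n k t) z| ≤ 3 * C * 2 ^ k := by
  have hpe : ∀ k, |pd j (eta a s k t) z| ≤ C * 2 ^ k := by
    intro k
    rw [pd_eta, rr_inv, abs_mul, abs_mul, abs_of_pos (by positivity : (0 : ℝ) < 2 ^ k), abs_of_nonneg (chi_nonneg _)]
    have h1 := (hb ((2 : ℝ) ^ k • (z - a)) j).1
    have h2 := chi_le_one ((s - t) / rr k ^ 2)
    have h3 := chi_nonneg ((s - t) / rr k ^ 2)
    calc (2 : ℝ) ^ k * |pd j bmp ((2 : ℝ) ^ k • (z - a))| * chi ((s - t) / rr k ^ 2) ≤ 2 ^ k * C * 1 := by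
          gcongr
      _ = C * 2 ^ k := by ring
  have h2k : (0 : ℝ) < 2 ^ k := by positivity
  by_cases hkn : k = n
  · have h1 : dd a s n k t = eta a s k t := by
      funext y
      unfold dd
      rw [if_pos hkn, sub_zero]
    rw [h1]
    refine (hpe k).trans ?_
    nlinarith [mul_nonneg hC h2k.le]
  · have h1 : dd a s n k t = fun y => eta a s k t y - eta a s (k + 1) t y := by
      funext y
      unfold dd
      rw [if_neg hkn]
    rw [h1, pd_sub (smooth_diff (smooth_eta_z a s k t) z) (smooth_diff (smooth_eta_z a s (k + 1) t) z)]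
    refine (abs_sub _ _).trans ?_
    have h3 := hpe k
    have h4 := hpe (k + 1)
    rw [pow_succ] at h4
    nlinarith [mul_nonneg hC h2k.le]

theorem phi_smooth (a : V) (s : ℝ) (n k : ℕ) :
    ContDiffOn ℝ ∞ (fun z : ℝ × V => phi a s n k z.1 z.2) (Iio (s + rr n ^ 2) ×ˢ univ) := by
  unfold phi ker psi
  have hN : ContDiffOn ℝ ∞ (fun z : ℝ × V => rr n ^ 2 + s - z.1) (Iio (s + rr n ^ 2) ×ˢ univ) :=
    (contDiff_const.sub contDiff_fst).contDiffOn
  have hpos : ∀ z ∈ Iio (s + rr n ^ 2) ×ˢ (univ : Set V), 0 < rr n ^ 2 + s - z.1 := by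
    rintro z ⟨hz, -⟩
    rw [mem_Iio] at hz
    linarith
  have h1 : ContDiffOn ℝ ∞ (fun z : ℝ × V => (√(rr n ^ 2 + s - z.1) ^ 3)⁻¹) (Iio (s + rr n ^ 2) ×ˢ univ) :=
    ((hN.sqrt (fun z hz => (hpos z hz).ne')).pow 3).inv (fun z hz => by
      have := Real.sqrt_pos.2 (hpos z hz)
      positivity)
  have h2 : ContDiffOn ℝ ∞ (fun z : ℝ × V => -(qq (z.2 - a)) / (4 * (rr n ^ 2 + s - z.1)))
      (Iio (s + rr n ^ 2) ×ˢ univ) := by
    apply ContDiffOn.div
    · exact (smooth_qq.comp (contDiff_snd.sub contDiff_const)).neg.contDiffOn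
    · exact contDiffOn_const.mul hN
    · intro z hz
      have := hpos z hz
      positivity
  exact (h1.mul h2.exp).mul (smooth_dd a s n k).contDiffOn

theorem dt_ker (a : V) (s : ℝ) (n : ℕ) (t : ℝ) (ht : t ≤ s) (z : V) :
    HasDerivAt (fun t' => ker a s n t' z)
      (-((-(3 / (2 * (rr n ^ 2 + s - t))) + qq (z - a) / (4 * (rr n ^ 2 + s - t) ^ 2)) * ker a s n t z)) t := by
  have hN : 0 < rr n ^ 2 + s - t := by
    have := rr_pos n
    have : 0 < rr n ^ 2 := by positivity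
    linarith
  have h1 : HasDerivAt (fun t' : ℝ => rr n ^ 2 + s - t') (-1) t := (hasDerivAt_id t).const_sub _
  have h2 := (hasDerivAt_psi _ hN (z - a)).comp t h1
  refine (h2.congr_deriv ?_)
  unfold ker
  ring

theorem heat_eq (a : V) (s : ℝ) (n : ℕ) (t : ℝ) (ht : t ≤ s) (z : V) :
    deriv (fun t' => ker a s n t' z * eta a s 2 t' z) t + lap (fun y => ker a s n t y * eta a s 2 t y) z =
      ker a s n t z * (bmp ((rr 2)⁻¹ • (z - a)) * (deriv chi ((s - t) / rr 2 ^ 2) * (-(1 / rr 2 ^ 2)))) +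
      2 * ∑ j, pd j (ker a s n t) z * pd j (eta a s 2 t) z + ker a s n t z * lap (eta a s 2 t) z := by
  have h1 := (dt_ker a s n t ht z).mul (dt_eta a s 2 t z)
  have h2 : deriv (fun t' => ker a s n t' z * eta a s 2 t' z) t = _ := h1.deriv
  have hk : ContDiff ℝ ∞ (ker a s n t) := smooth_psi _ _
  rw [h2, lap_mul hk (smooth_eta_z a s 2 t) z]
  have h3 : lap (ker a s n t) z = (-(3 / (2 * (rr n ^ 2 + s - t))) + qq (z - a) / (4 * (rr n ^ 2 + s - t) ^ 2)) *
      ker a s n t z := lap_psi _ a z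
  rw [h3]
  ring

theorem hNpos (s : ℝ) (n : ℕ) (t : ℝ) (ht : t ≤ s) : 0 < rr n ^ 2 + s - t := by
  have := rr_pos n
  have : 0 < rr n ^ 2 := by positivity
  linarith

theorem f_size (a : V) (s : ℝ) (n k : ℕ) (hk : k ≤ n) (t : ℝ) (ht : t ≤ s) (z : V) :
    |phi a s n k t z| ≤ 768 * 8 ^ k := by
  by_cases h : rr (k + 2) ^ 2 ≤ rr n ^ 2 + s - t ∨ rr (k + 2) ≤ ‖z - a‖
  · have h1 : ker a s n t z ≤ 12 * (rr (k + 2) ^ 3)⁻¹ := psi_le _ (hNpos s n t ht) (z - a) _ (rr_pos _) h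
    rw [rr_inv3] at h1
    unfold phi
    rw [abs_mul, abs_of_nonneg (ker_nonneg a s n t z)]
    calc ker a s n t z * |dd a s n k t z| ≤ (12 * 8 ^ (k + 2)) * 1 :=
          mul_le_mul h1 (abs_dd_le a s n k t z) (abs_nonneg _) (by positivity)
      _ = 768 * 8 ^ k := by
          rw [pow_add]
          ring
  · have h1 := (dd_ev a s n k hk t ht z h).self_of_nhds
    unfold phi
    rw [h1, mul_zero, abs_zero]
    positivity

theorem f_grad (a : V) (s : ℝ) (n k : ℕ) (hk : k ≤ n) (t : ℝ) (ht : t ≤ s) (z : V) (j : Fin 3) (C : ℝ) (hC : 1 ≤ C)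
    (hb : ∀ x j, |pd j (bmp : V → ℝ) x| ≤ C ∧ |pd j (pd j (bmp : V → ℝ)) x| ≤ C) :
    |pd j (phi a s n k t) z| ≤ 20000 * C * 16 ^ k := by
  have hk0 : ContDiff ℝ ∞ (ker a s n t) := smooth_psi _ _
  have e : pd j (phi a s n k t) z = pd j (ker a s n t) z * dd a s n k t z + ker a s n t z * pd j (dd a s n k t) z :=
    pd_mul (smooth_diff hk0 z) (smooth_diff (smooth_dd_z a s n k t) z) j
  by_cases h : rr (k + 2) ^ 2 ≤ rr n ^ 2 + s - t ∨ rr (k + 2) ≤ ‖z - a‖
  · have h1 : ker a s n t z ≤ 12 * (rr (k + 2) ^ 3)⁻¹ := psi_le _ (hNpos s n t ht) (z - a) _ (rr_pos _) h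
    have h2 : |pd j (ker a s n t) z| ≤ 64 * (rr (k + 2) ^ 4)⁻¹ :=
      pd_psi_le _ (hNpos s n t ht) a z j _ (rr_pos _) h
    rw [rr_inv3] at h1
    rw [rr_inv4] at h2
    have h3 := abs_dd_le a s n k t z
    have h4 := pd_dd_le a s n k t z j C (by linarith) hb
    rw [e]
    refine (abs_add_le _ _).trans ?_
    rw [abs_mul, abs_mul, abs_of_nonneg (ker_nonneg a s n t z)]
    have h5 : |pd j (ker a s n t) z| * |dd a s n k t z| ≤ (64 * 16 ^ (k + 2)) * 1 :=
      mul_le_mul h2 h3 (abs_nonneg _) (by positivity)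
    have h6 : ker a s n t z * |pd j (dd a s n k t) z| ≤ (12 * 8 ^ (k + 2)) * (3 * C * 2 ^ k) :=
      mul_le_mul h1 h4 (abs_nonneg _) (by positivity)
    have h7 : (12 * 8 ^ (k + 2) : ℝ) * (3 * C * 2 ^ k) = 2304 * C * 16 ^ k := by
      rw [show (16 : ℝ) = 8 * 2 by norm_num, mul_pow, pow_add]
      ring
    have h8 : (64 * 16 ^ (k + 2) : ℝ) * 1 = 16384 * 16 ^ k := by
      rw [pow_add]
      ring
    rw [h7] at h6
    rw [h8] at h5
    have h9 : (0 : ℝ) < 16 ^ k := by positivity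
    nlinarith
  · have h1 := dd_ev a s n k hk t ht z h
    have h2 : pd j (dd a s n k t) z = 0 := by rw [pd_congr h1, pd_const]
    have h3 : dd a s n k t z = 0 := h1.self_of_nhds
    rw [e, h2, h3, mul_zero, mul_zero, add_zero, abs_zero]
    positivity

theorem eta_le (a : V) (s : ℝ) (t : ℝ) (z : V) : eta a s 5 t z ≤ eta a s 2 t z := by
  by_cases h : ‖z - a‖ < rr 5 ∧ s - t < rr 5 ^ 2
  · have h5 : rr 5 ≤ rr 3 := rr_anti (by omega)
    have h6 := rr_pos 5
    have h7 : rr 5 ^ 2 ≤ rr 3 ^ 2 := pow_le_pow_left₀ h6.le h5 2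
    rw [eta_one a s 2 t z (by show _ ≤ rr 3; linarith) (by show _ ≤ rr 3 ^ 2; linarith)]
    exact eta_le_one _ _ _ _ _
  · have h1 : eta a s 5 t z = 0 := by
      by_cases h2 : ‖z - a‖ < rr 5
      · have h3 : rr 5 ^ 2 ≤ s - t := by
          by_contra h4
          exact h ⟨h2, not_le.1 h4⟩
        exact eta_zero_t a s 5 t z h3
      · exact eta_zero a s 5 t z (not_lt.1 h2)
    rw [h1]
    exact eta_nonneg _ _ _ _ _

theorem f_heat (a : V) (s : ℝ) (n : ℕ) (t : ℝ) (ht : t ≤ s) (z : V) (C : ℝ) (hC : 1 ≤ C)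
    (hchi : ∀ τ, |deriv chi τ| ≤ C)
    (hb : ∀ x j, |pd j (bmp : V → ℝ) x| ≤ C ∧ |pd j (pd j (bmp : V → ℝ)) x| ≤ C) :
    deriv (fun t' => ker a s n t' z * eta a s 2 t' z) t + lap (fun y => ker a s n t y * eta a s 2 t y) z ≤
      10 ^ 7 * C := by
  rw [heat_eq a s n t ht z]
  have hr2 : rr 2 = 1 / 4 := by unfold rr; norm_num
  have hr3 : rr 3 = 1 / 8 := by unfold rr; norm_num
  by_cases h : rr 3 ^ 2 ≤ rr n ^ 2 + s - t ∨ rr 3 ≤ ‖z - a‖
  · have h1 : ker a s n t z ≤ 12 * (rr 3 ^ 3)⁻¹ := psi_le _ (hNpos s n t ht) (z - a) _ (rr_pos _) h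
    have h2 : ∀ j, |pd j (ker a s n t) z| ≤ 64 * (rr 3 ^ 4)⁻¹ := fun j =>
      pd_psi_le _ (hNpos s n t ht) a z j _ (rr_pos _) h
    rw [rr_inv3] at h1
    rw [rr_inv4] at h2
    have hk0 := ker_nonneg a s n t z
    have hC0 : 0 ≤ C := by linarith
    -- first term
    have t1 : ker a s n t z * (bmp ((rr 2)⁻¹ • (z - a)) * (deriv chi ((s - t) / rr 2 ^ 2) * (-(1 / rr 2 ^ 2)))) ≤
        (12 * 8 ^ 3) * (1 * (C * 16)) := by
      refine (le_abs_self _).trans ?_
      rw [abs_mul, abs_of_nonneg hk0]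
      apply mul_le_mul h1 _ (abs_nonneg _) (by norm_num)
      rw [abs_mul, abs_of_nonneg (bmp_nonneg _)]
      apply mul_le_mul (bmp_le_one _) _ (abs_nonneg _) (by norm_num)
      rw [abs_mul]
      apply mul_le_mul (hchi _) _ (abs_nonneg _) hC0
      rw [hr2]
      norm_num
    -- derivatives of the cut-off
    have e1 : ∀ j, |pd j (eta a s 2 t) z| ≤ 4 * C := by
      intro j
      rw [pd_eta, hr2, abs_mul, abs_mul, abs_of_nonneg (chi_nonneg _)]
      have h3 := (hb (((1 : ℝ) / 4)⁻¹ • (z - a)) j).1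
      have h4 := chi_le_one ((s - t) / (1 / 4) ^ 2)
      have h5 := chi_nonneg ((s - t) / (1 / 4) ^ 2)
      calc |((1 : ℝ) / 4)⁻¹| * |pd j bmp (((1 : ℝ) / 4)⁻¹ • (z - a))| * chi ((s - t) / (1 / 4) ^ 2)
          ≤ 4 * C * 1 := by
            gcongr
            rw [abs_of_pos (by norm_num)]
            norm_num
        _ = 4 * C := by ring
    have e2 : ∀ j, |pd j (pd j (eta a s 2 t)) z| ≤ 16 * C := by
      intro j
      rw [pd2_eta, hr2, abs_mul, abs_mul, abs_of_nonneg (chi_nonneg _)]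
      have h3 := (hb (((1 : ℝ) / 4)⁻¹ • (z - a)) j).2
      have h4 := chi_le_one ((s - t) / (1 / 4) ^ 2)
      have h5 := chi_nonneg ((s - t) / (1 / 4) ^ 2)
      calc |((1 : ℝ) / 4)⁻¹ ^ 2| * |pd j (pd j bmp) (((1 : ℝ) / 4)⁻¹ • (z - a))| * chi ((s - t) / (1 / 4) ^ 2)
          ≤ 16 * C * 1 := by
            gcongr
            rw [abs_of_pos (by norm_num)]
            norm_num
        _ = 16 * C := by ring
    have t2 : ∑ j, pd j (ker a s n t) z * pd j (eta a s 2 t) z ≤ 3 * ((64 * 16 ^ 3) * (4 * C)) := by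
      have h3 : ∀ j ∈ (Finset.univ : Finset (Fin 3)), pd j (ker a s n t) z * pd j (eta a s 2 t) z ≤
          (64 * 16 ^ 3) * (4 * C) := by
        intro j _
        refine (le_abs_self _).trans ?_
        rw [abs_mul]
        exact mul_le_mul (h2 j) (e1 j) (abs_nonneg _) (by norm_num)
      refine (Finset.sum_le_card_nsmul _ _ _ h3).trans ?_
      rw [Finset.card_univ, Fintype.card_fin, nsmul_eq_mul]
      norm_num
    have t3 : ker a s n t z * lap (eta a s 2 t) z ≤ (12 * 8 ^ 3) * (3 * (16 * C)) := by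
      have h4 : |lap (eta a s 2 t) z| ≤ 3 * (16 * C) := by
        unfold lap
        refine (Finset.abs_sum_le_sum_abs _ _).trans ?_
        refine (Finset.sum_le_card_nsmul _ _ _ (fun j _ => e2 j)).trans ?_
        rw [Finset.card_univ, Fintype.card_fin, nsmul_eq_mul]
        norm_num
      refine (le_abs_self _).trans ?_
      rw [abs_mul, abs_of_nonneg hk0]
      exact mul_le_mul h1 h4 (abs_nonneg _) (by norm_num)
    norm_num at t1 t2 t3 ⊢
    linarith
  · rw [not_or, not_le, not_le] at h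
    obtain ⟨h1, h2⟩ := h
    have h3 : ‖(rr 2)⁻¹ • (z - a)‖ < 1 / 2 := by
      rw [norm_sc, hr2, div_lt_iff₀ (by norm_num)]
      rw [hr3] at h2
      linarith
    have h4 : (s - t) / rr 2 ^ 2 < 1 / 4 := by
      have h5 : 0 < rr n ^ 2 := by
        have := rr_pos n
        positivity
      rw [hr2, div_lt_iff₀ (by norm_num)]
      rw [hr3] at h1
      norm_num at h1 ⊢
      linarith
    have e1 : ∀ j, pd j (eta a s 2 t) z = 0 := by
      intro j
      rw [pd_eta, pd_bmp_zero h3, mul_zero, zero_mul]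
    have e2 : lap (eta a s 2 t) z = 0 := by
      unfold lap
      apply Finset.sum_eq_zero
      intro j _
      rw [pd2_eta, pd2_bmp_zero h3, mul_zero, zero_mul]
    rw [dchi_zero h4, e2]
    simp only [e1, mul_zero, zero_mul, Finset.sum_const_zero, add_zero]
    positivity

theorem f_low (a : V) (s : ℝ) (n : ℕ) (hn : 5 ≤ n) (t : ℝ) (h1 : s - rr (n + 1) ^ 2 < t) (h2 : t ≤ s)
    (z : V) (hz : z ∈ ball a (rr (n + 1))) : 1 / 16 * 8 ^ n ≤ ker a s n t z * eta a s 2 t z := by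
  rw [mem_ball, dist_eq_norm] at hz
  have hr3 : rr (n + 1) ≤ rr 3 := rr_anti (by omega)
  have hp := rr_pos (n + 1)
  have hpn := rr_pos n
  have hr3' : rr (n + 1) ^ 2 ≤ rr 3 ^ 2 := pow_le_pow_left₀ hp.le hr3 2
  rw [eta_one a s 2 t z (by show _ ≤ rr 3; linarith) (by show _ ≤ rr 3 ^ 2; linarith), mul_one]
  have hN := hNpos s n t h2
  have hs := rr_succ n
  have hN2 : rr n ^ 2 + s - t ≤ (2 * rr n) ^ 2 := by
    rw [hs] at h1
    nlinarith
  have hN3 : rr n ^ 2 ≤ rr n ^ 2 + s - t := by linarith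
  unfold ker psi
  have hw : √(rr n ^ 2 + s - t) ≤ 2 * rr n := by
    rw [← Real.sqrt_sq (by positivity : (0 : ℝ) ≤ 2 * rr n)]
    exact Real.sqrt_le_sqrt hN2
  have hw0 : 0 < √(rr n ^ 2 + s - t) := Real.sqrt_pos.2 hN
  have e1 : 1 / 8 * 8 ^ n ≤ (√(rr n ^ 2 + s - t) ^ 3)⁻¹ := by
    have h3 : ((2 * rr n) ^ 3)⁻¹ ≤ (√(rr n ^ 2 + s - t) ^ 3)⁻¹ :=
      inv_anti₀ (by positivity) (pow_le_pow_left₀ hw0.le hw 3)
    refine le_trans (le_of_eq ?_) h3
    rw [mul_pow, mul_inv, rr_inv3]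
    norm_num
  have e2 : 1 / 2 ≤ Real.exp (-(qq (z - a)) / (4 * (rr n ^ 2 + s - t))) := by
    have h3 : qq (z - a) ≤ 3 * ‖z - a‖ ^ 2 := qq_le _
    have h4 : ‖z - a‖ ^ 2 ≤ (rr n / 2) ^ 2 := by
      rw [← hs]
      exact pow_le_pow_left₀ (norm_nonneg _) hz.le 2
    have h5 : qq (z - a) / (4 * (rr n ^ 2 + s - t)) ≤ 1 / 2 := by
      rw [div_le_iff₀ (by positivity)]
      nlinarith
    have h6 := Real.add_one_le_exp (-(qq (z - a)) / (4 * (rr n ^ 2 + s - t)))
    rw [neg_div] at h6 ⊢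
    linarith
  calc (1 : ℝ) / 16 * 8 ^ n = (1 / 8 * 8 ^ n) * (1 / 2) := by ring
    _ ≤ _ := mul_le_mul e1 e2 (by norm_num) (by positivity)

theorem f_int (a : V) (s : ℝ) (n : ℕ) (t : ℝ) (ht : t ≤ s) :
    ∫ z, ker a s n t z * eta a s 2 t z ≤ 64 := by
  have hN := hNpos s n t ht
  have hi : Integrable (fun z : V => ker a s n t z) := (psi_integrable _ hN).comp_sub_right a
  have h1 : ∫ z, ker a s n t z * eta a s 2 t z ≤ ∫ z, ker a s n t z := by
    apply integral_mono_of_nonneg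
    · exact Filter.Eventually.of_forall fun z => mul_nonneg (ker_nonneg _ _ _ _ _) (eta_nonneg _ _ _ _ _)
    · exact hi
    · exact Filter.Eventually.of_forall fun z => mul_le_of_le_one_right (ker_nonneg _ _ _ _ _) (eta_le_one _ _ _ _ _)
  have h2 : ∫ z, ker a s n t z = √(4 * Real.pi) ^ 3 := by
    rw [← psi_integral _ hN]
    exact integral_sub_right_eq_self (fun x : V => psi (rr n ^ 2 + s - t) x) a
  have h3 : √(4 * Real.pi) ≤ 4 := by
    rw [Real.sqrt_le_left (by norm_num)]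
    have := Real.pi_lt_d2
    norm_num at this ⊢
    linarith
  have h4 : √(4 * Real.pi) ^ 3 ≤ 4 ^ 3 := pow_le_pow_left₀ (Real.sqrt_nonneg _) h3 3
  rw [h2] at h1
  exact h1.trans (h4.trans (by norm_num))

theorem t_TF : S_TF := by
  obtain ⟨C, hC1, hchi, hb⟩ := all_bdd
  refine ⟨10 ^ 7 * C, 1 / 16, by linarith, by norm_num, fun a s n hn => ⟨phi a s n, ?_⟩⟩
  have s2 : ∀ t z, ∑ k ∈ Finset.Icc 2 n, phi a s n k t z = ker a s n t z * eta a s 2 t z :=
    fun t z => sum_phi a s n 2 (by omega) t z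
  have s5 : ∀ t z, ∑ k ∈ Finset.Icc 5 n, phi a s n k t z = ker a s n t z * eta a s 5 t z :=
    fun t z => sum_phi a s n 5 hn t z
  refine
    { smooth := fun k => phi_smooth a s n k
      supp := ?_
      suppt := ?_
      size := ?_
      grad := ?_
      pos := ?_
      out := ?_
      heat := ?_
      low := ?_
      int := ?_ }
  · intro k _ t z hz
    rw [mem_ball, dist_eq_norm, not_lt] at hz
    have h1 : rr (k + 1) ≤ rr k := rr_anti (by omega)
    unfold phi dd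
    rw [eta_zero a s k t z hz, eta_zero a s (k + 1) t z (by linarith)]
    simp
  · intro k _ t ht z
    have h1 : rr (k + 1) ≤ rr k := rr_anti (by omega)
    have h2 := rr_pos (k + 1)
    have h3 : rr (k + 1) ^ 2 ≤ rr k ^ 2 := pow_le_pow_left₀ h2.le h1 2
    unfold phi dd
    rw [eta_zero_t a s k t z (by linarith), eta_zero_t a s (k + 1) t z (by linarith)]
    simp
  · intro k hk t ht z
    rw [Finset.mem_Icc] at hk
    refine (f_size a s n k hk.2 t ht z).trans ?_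
    have : (0 : ℝ) < 8 ^ k := by positivity
    nlinarith
  · intro k hk t ht z i
    rw [Finset.mem_Icc] at hk
    refine (f_grad a s n k hk.2 t ht z i C hC1 hb).trans ?_
    have : (0 : ℝ) < 16 ^ k := by positivity
    have h2 : 0 ≤ C * 16 ^ k := by positivity
    nlinarith
  · intro t ht z
    rw [s2]
    exact mul_nonneg (ker_nonneg _ _ _ _ _) (eta_nonneg _ _ _ _ _)
  · intro t ht z
    rw [s2, s5, abs_of_nonneg (mul_nonneg (ker_nonneg _ _ _ _ _) (eta_nonneg _ _ _ _ _))]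
    exact mul_le_mul_of_nonneg_left (eta_le a s t z) (ker_nonneg _ _ _ _ _)
  · intro t ht z
    simp only [s2]
    exact f_heat a s n t ht z C hC1 hchi hb
  · intro t h1 h2 z hz
    rw [s2]
    exact f_low a s n hn t h1 h2 z hz
  · intro t ht
    simp only [s2]
    refine (f_int a s n t ht).trans ?_
    linarith

end

end W918.MD
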