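import Pool.Agent.W918.MD.Ker

set_option autoImplicit false
set_option linter.all false

open MeasureTheory Set Metric
open scoped ContDiff

namespace W918.MD

open H459R3.NS W221.NS

noncomputable section

/-! ### the radii -/

theorem rr_pos (k : ℕ) : 0 < rr k := by
  unfold rr
  positivity

theorem rr_succ (k : ℕ) : rr (k + 1) = rr k / 2 := by
  unfold rr
  rw [pow_succ]
  ring

theorem rr_two (k : ℕ) : rr (k + 2) = rr k / 4 := by
  rw [rr_succ, rr_succ]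
  ring

theorem rr_anti {k l : ℕ} (h : k ≤ l) : rr l ≤ rr k := by
  unfold rr
  exact pow_le_pow_of_le_one (by norm_num) (by norm_num) h

theorem rr_inv (k : ℕ) : (rr k)⁻¹ = 2 ^ k := by
  unfold rr
  rw [one_div, inv_pow, inv_inv]

theorem rr_inv3 (k : ℕ) : (rr k ^ 3)⁻¹ = 8 ^ k := by
  rw [← inv_pow, rr_inv, ← pow_mul, mul_comm, pow_mul]
  norm_num

theorem rr_inv4 (k : ℕ) : (rr k ^ 4)⁻¹ = 16 ^ k := by
  rw [← inv_pow, rr_inv, ← pow_mul, mul_comm, pow_mul]
  norm_num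

/-! ### the cut-off in time -/

/-- the cut-off in time -/
def chi (τ : ℝ) : ℝ := Real.smoothTransition ((4 / 3) * (1 - τ))

theorem chi_nonneg (τ : ℝ) : 0 ≤ chi τ := Real.smoothTransition.nonneg _

theorem chi_le_one (τ : ℝ) : chi τ ≤ 1 := Real.smoothTransition.le_one _

theorem chi_one {τ : ℝ} (h : τ ≤ 1 / 4) : chi τ = 1 := by
  unfold chi
  apply Real.smoothTransition.one_of_one_le
  linarith

theorem chi_zero {τ : ℝ} (h : 1 ≤ τ) : chi τ = 0 := by
  unfold chi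
  apply Real.smoothTransition.zero_of_nonpos
  linarith

theorem smooth_chi : ContDiff ℝ ∞ chi := by
  unfold chi
  have : ContDiff ℝ ∞ Real.smoothTransition := Real.smoothTransition.contDiff
  exact this.comp (contDiff_const.mul (contDiff_const.sub contDiff_id))

theorem dchi_zero {τ : ℝ} (h : τ < 1 / 4) : deriv chi τ = 0 := by
  have : chi =ᶠ[nhds τ] fun _ => 1 := by
    filter_upwards [gt_mem_nhds h] with y hy
    exact chi_one (le_of_lt hy)
  rw [this.deriv_eq]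
  simp

theorem dchi_zero' {τ : ℝ} (h : 1 < τ) : deriv chi τ = 0 := by
  have : chi =ᶠ[nhds τ] fun _ => 0 := by
    filter_upwards [lt_mem_nhds h] with y hy
    exact chi_zero (le_of_lt hy)
  rw [this.deriv_eq]
  simp

theorem dchi_bdd : ∃ C : ℝ, ∀ τ, |deriv chi τ| ≤ C := by
  have hc : Continuous (deriv chi) := smooth_chi.continuous_deriv (by simp)
  obtain ⟨C, hC⟩ := (isCompact_Icc (a := (0 : ℝ)) (b := 1)).exists_bound_of_continuousOn hc.continuousOn
  refine ⟨max C 0, fun τ => ?_⟩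
  by_cases h0 : τ < 1 / 4
  · rw [dchi_zero h0, abs_zero]
    exact le_max_right _ _
  · by_cases h1 : 1 < τ
    · rw [dchi_zero' h1, abs_zero]
      exact le_max_right _ _
    · exact (hC τ ⟨by linarith, by linarith⟩).trans (le_max_left _ _)

/-! ### the cut-off in space -/

theorem smooth_bmp : ContDiff ℝ ∞ (bmp : V → ℝ) := bmp.contDiff

theorem bmp_one {x : V} (h : ‖x‖ ≤ 1 / 2) : bmp x = 1 := by
  apply bmp.one_of_mem_closedBall
  rw [mem_closedBall, dist_zero_right]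
  exact h

theorem bmp_zero {x : V} (h : 1 ≤ ‖x‖) : bmp x = 0 := by
  apply bmp.zero_of_le_dist
  rw [dist_zero_right]
  exact h

theorem bmp_nonneg (x : V) : 0 ≤ bmp x := bmp.nonneg

theorem bmp_le_one (x : V) : bmp x ≤ 1 := bmp.le_one

theorem bmp_ev {x : V} (h : ‖x‖ < 1 / 2) : (bmp : V → ℝ) =ᶠ[nhds x] fun _ => 1 := by
  have : {y : V | ‖y‖ < 1 / 2} ∈ nhds x := (isOpen_lt continuous_norm continuous_const).mem_nhds h
  filter_upwards [this] with y hy
  exact bmp_one (le_of_lt hy)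

theorem pd_bmp_zero {x : V} (h : ‖x‖ < 1 / 2) (j : Fin 3) : pd j (bmp : V → ℝ) x = 0 := by
  rw [pd_congr (bmp_ev h) j, pd_const]

theorem pd2_bmp_zero {x : V} (h : ‖x‖ < 1 / 2) (j : Fin 3) : pd j (pd j (bmp : V → ℝ)) x = 0 := by
  have h2 : pd j (bmp : V → ℝ) =ᶠ[nhds x] fun _ => 0 := by
    have : {y : V | ‖y‖ < 1 / 2} ∈ nhds x := (isOpen_lt continuous_norm continuous_const).mem_nhds h
    filter_upwards [this] with y hy
    exact pd_bmp_zero hy j
  rw [pd_congr h2 j, pd_const]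

theorem cs_pd {f : V → ℝ} (hf : HasCompactSupport f) (j : Fin 3) : HasCompactSupport (pd j f) := by
  unfold pd
  exact hf.fderiv_apply (𝕜 := ℝ) (Pi.single j 1)

theorem bmp_bdd : ∃ C : ℝ, ∀ x j, |pd j (bmp : V → ℝ) x| ≤ C ∧ |pd j (pd j (bmp : V → ℝ)) x| ≤ C := by
  have hcs : HasCompactSupport (bmp : V → ℝ) := bmp.hasCompactSupport
  have h1 : ∀ j : Fin 3, ∃ C, ∀ x, ‖pd j (bmp : V → ℝ) x‖ ≤ C := fun j =>
    (cs_pd hcs j).exists_bound_of_continuous (pd_smooth smooth_bmp j).continuous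
  have h2 : ∀ j : Fin 3, ∃ C, ∀ x, ‖pd j (pd j (bmp : V → ℝ)) x‖ ≤ C := fun j =>
    (cs_pd (cs_pd hcs j) j).exists_bound_of_continuous (pd_smooth (pd_smooth smooth_bmp j) j).continuous
  choose C1 hC1 using h1
  choose C2 hC2 using h2
  refine ⟨∑ j, (|C1 j| + |C2 j|), fun x j => ?_⟩
  have h3 : |C1 j| + |C2 j| ≤ ∑ j, (|C1 j| + |C2 j|) :=
    Finset.single_le_sum (f := fun j => |C1 j| + |C2 j|) (fun j _ => by positivity) (Finset.mem_univ j)
  have h4 := hC1 j x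
  have h5 := hC2 j x
  rw [Real.norm_eq_abs] at h4 h5
  have h6 := le_abs_self (C1 j)
  have h7 := le_abs_self (C2 j)
  have h8 := abs_nonneg (C1 j)
  have h9 := abs_nonneg (C2 j)
  exact ⟨by linarith, by linarith⟩

/-- one constant for everything -/
theorem all_bdd : ∃ C : ℝ, 1 ≤ C ∧ (∀ τ, |deriv chi τ| ≤ C) ∧
    ∀ x j, |pd j (bmp : V → ℝ) x| ≤ C ∧ |pd j (pd j (bmp : V → ℝ)) x| ≤ C := by
  obtain ⟨C1, h1⟩ := dchi_bdd
  obtain ⟨C2, h2⟩ := bmp_bdd
  refine ⟨max 1 (max C1 C2), le_max_left _ _, fun τ => (h1 τ).trans ?_, fun x j => ?_⟩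
  · exact (le_max_left _ _).trans (le_max_right _ _)
  · have h3 : C2 ≤ max 1 (max C1 C2) := (le_max_right _ _).trans (le_max_right _ _)
    exact ⟨(h2 x j).1.trans h3, (h2 x j).2.trans h3⟩

theorem pd_scale {f : V → ℝ} (hf : ContDiff ℝ ∞ f) (c : ℝ) (a z : V) (j : Fin 3) :
    pd j (fun z => f (c • (z - a))) z = c * pd j f (c • (z - a)) := by
  have h1 : HasFDerivAt (fun z : V => c • (z - a)) (c • ContinuousLinearMap.id ℝ V) z :=
    ((hasFDerivAt_id z).sub_const a).const_smul c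
  have h2 := ((smooth_diff hf) (c • (z - a))).hasFDerivAt.comp z h1
  show pd j (f ∘ fun z => c • (z - a)) z = _
  rw [pd_of h2 j]
  unfold pd
  simp

/-! ### the cut-off functions -/

/-- the cut-off at scale `k` -/
def eta (a : V) (s : ℝ) (k : ℕ) (t : ℝ) (z : V) : ℝ :=
  bmp ((rr k)⁻¹ • (z - a)) * chi ((s - t) / rr k ^ 2)

theorem norm_sc (k : ℕ) (x : V) : ‖(rr k)⁻¹ • x‖ = ‖x‖ / rr k := by
  rw [norm_smul, Real.norm_of_nonneg (by have := rr_pos k; positivity)]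
  ring

theorem eta_nonneg (a : V) (s : ℝ) (k : ℕ) (t : ℝ) (z : V) : 0 ≤ eta a s k t z :=
  mul_nonneg (bmp_nonneg _) (chi_nonneg _)

theorem eta_le_one (a : V) (s : ℝ) (k : ℕ) (t : ℝ) (z : V) : eta a s k t z ≤ 1 :=
  mul_le_one₀ (bmp_le_one _) (chi_nonneg _) (chi_le_one _)

theorem eta_one (a : V) (s : ℝ) (k : ℕ) (t : ℝ) (z : V) (h1 : ‖z - a‖ ≤ rr (k + 1))
    (h2 : s - t ≤ rr (k + 1) ^ 2) : eta a s k t z = 1 := by
  have hr := rr_pos k
  unfold eta
  rw [rr_succ] at h1 h2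
  rw [bmp_one, chi_one, one_mul]
  · rw [div_le_iff₀ (by positivity)]
    linarith
  · rw [norm_sc, div_le_iff₀ hr]
    linarith

theorem eta_zero (a : V) (s : ℝ) (k : ℕ) (t : ℝ) (z : V) (h1 : rr k ≤ ‖z - a‖) : eta a s k t z = 0 := by
  have hr := rr_pos k
  unfold eta
  rw [bmp_zero, zero_mul]
  rw [norm_sc, le_div_iff₀ hr]
  linarith

theorem eta_zero_t (a : V) (s : ℝ) (k : ℕ) (t : ℝ) (z : V) (h1 : rr k ^ 2 ≤ s - t) : eta a s k t z = 0 := by
  have hr := rr_pos k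
  unfold eta
  rw [chi_zero, mul_zero]
  rw [le_div_iff₀ (by positivity)]
  linarith

theorem smooth_eta (a : V) (s : ℝ) (k : ℕ) : ContDiff ℝ ∞ (fun z : ℝ × V => eta a s k z.1 z.2) := by
  unfold eta
  have h1 : ContDiff ℝ ∞ (fun z : ℝ × V => bmp ((rr k)⁻¹ • (z.2 - a))) :=
    smooth_bmp.comp ((contDiff_snd.sub contDiff_const).const_smul _)
  have h2 : ContDiff ℝ ∞ (fun z : ℝ × V => chi ((s - z.1) / rr k ^ 2)) :=
    smooth_chi.comp ((contDiff_const.sub contDiff_fst).div_const _)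
  exact h1.mul h2

theorem smooth_eta_z (a : V) (s : ℝ) (k : ℕ) (t : ℝ) : ContDiff ℝ ∞ (eta a s k t) :=
  (smooth_eta a s k).comp (contDiff_const.prodMk contDiff_id)

theorem pd_eta (a : V) (s : ℝ) (k : ℕ) (t : ℝ) (z : V) (j : Fin 3) :
    pd j (eta a s k t) z = (rr k)⁻¹ * pd j bmp ((rr k)⁻¹ • (z - a)) * chi ((s - t) / rr k ^ 2) := by
  have h : (fun z => eta a s k t z) = fun z => chi ((s - t) / rr k ^ 2) * bmp ((rr k)⁻¹ • (z - a)) := by
    funext y
    unfold eta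
    ring
  show pd j (fun z => eta a s k t z) z = _
  have hs : ContDiff ℝ ∞ (fun z : V => bmp ((rr k)⁻¹ • (z - a))) :=
    smooth_bmp.comp ((contDiff_id.sub contDiff_const).const_smul _)
  rw [h, pd_cmul (f := fun z => bmp ((rr k)⁻¹ • (z - a))) (smooth_diff hs z), pd_scale smooth_bmp]
  ring

theorem pd2_eta (a : V) (s : ℝ) (k : ℕ) (t : ℝ) (z : V) (j : Fin 3) :
    pd j (pd j (eta a s k t)) z =
      (rr k)⁻¹ ^ 2 * pd j (pd j bmp) ((rr k)⁻¹ • (z - a)) * chi ((s - t) / rr k ^ 2) := by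
  have h : pd j (eta a s k t) = fun z => ((rr k)⁻¹ * chi ((s - t) / rr k ^ 2)) * pd j bmp ((rr k)⁻¹ • (z - a)) := by
    funext y
    rw [pd_eta]
    ring
  have hs : ContDiff ℝ ∞ (fun z : V => pd j bmp ((rr k)⁻¹ • (z - a))) :=
    (pd_smooth smooth_bmp j).comp ((contDiff_id.sub contDiff_const).const_smul _)
  rw [h, pd_cmul (f := fun z => pd j bmp ((rr k)⁻¹ • (z - a))) (smooth_diff hs z), pd_scale (pd_smooth smooth_bmp j)]
  ring

theorem dt_eta (a : V) (s : ℝ) (k : ℕ) (t : ℝ) (z : V) :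
    HasDerivAt (fun t' => eta a s k t' z)
      (bmp ((rr k)⁻¹ • (z - a)) * (deriv chi ((s - t) / rr k ^ 2) * (-(1 / rr k ^ 2)))) t := by
  unfold eta
  have h1 : HasDerivAt (fun t' : ℝ => (s - t') / rr k ^ 2) (-(1 / rr k ^ 2)) t := by
    have := ((hasDerivAt_id t).const_sub s).div_const (rr k ^ 2)
    refine this.congr_deriv ?_
    ring
  have h2 : HasDerivAt chi (deriv chi ((s - t) / rr k ^ 2)) ((s - t) / rr k ^ 2) :=
    ((smooth_chi.differentiable (by simp)) _).hasDerivAt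
  exact (h2.comp t h1).const_mul _

end

end W918.MD
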