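import Pool.Agent.W221.NS.Stm

set_option autoImplicit false
set_option linter.all false

open MeasureTheory Set Metric
open scoped ContDiff

namespace W918.MD

open H459R3.NS W221.NS

noncomputable section

/-! ### rules for `pd` -/

theorem pd_of {f : V → ℝ} {f' : V →L[ℝ] ℝ} {z : V} (h : HasFDerivAt f f' z) (j : Fin 3) :
    pd j f z = f' (Pi.single j 1) := by
  unfold pd
  rw [h.fderiv]

theorem pd_congr {f g : V → ℝ} {z : V} (h : f =ᶠ[nhds z] g) (j : Fin 3) : pd j f z = pd j g z := by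
  unfold pd
  rw [h.fderiv_eq]

theorem pd_mul {f g : V → ℝ} {z : V} (hf : DifferentiableAt ℝ f z) (hg : DifferentiableAt ℝ g z) (j : Fin 3) :
    pd j (fun y => f y * g y) z = pd j f z * g z + f z * pd j g z := by
  show pd j (f * g) z = _
  rw [pd_of (hf.hasFDerivAt.mul hg.hasFDerivAt) j]
  unfold pd
  simp only [ContinuousLinearMap.add_apply, ContinuousLinearMap.smul_apply, smul_eq_mul]
  ring

theorem pd_add {f g : V → ℝ} {z : V} (hf : DifferentiableAt ℝ f z) (hg : DifferentiableAt ℝ g z) (j : Fin 3) :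
    pd j (fun y => f y + g y) z = pd j f z + pd j g z := by
  show pd j (f + g) z = _
  rw [pd_of (hf.hasFDerivAt.add hg.hasFDerivAt) j]
  unfold pd
  simp only [ContinuousLinearMap.add_apply]

theorem pd_sub {f g : V → ℝ} {z : V} (hf : DifferentiableAt ℝ f z) (hg : DifferentiableAt ℝ g z) (j : Fin 3) :
    pd j (fun y => f y - g y) z = pd j f z - pd j g z := by
  show pd j (f - g) z = _
  rw [pd_of (hf.hasFDerivAt.sub hg.hasFDerivAt) j]
  unfold pd
  simp only [ContinuousLinearMap.sub_apply]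

theorem pd_cmul {f : V → ℝ} {z : V} (hf : DifferentiableAt ℝ f z) (c : ℝ) (j : Fin 3) :
    pd j (fun y => c * f y) z = c * pd j f z := by
  rw [pd_of (hf.hasFDerivAt.const_mul c) j]
  unfold pd
  simp only [ContinuousLinearMap.smul_apply, smul_eq_mul]

theorem pd_const (c : ℝ) (z : V) (j : Fin 3) : pd j (fun _ => c) z = 0 := by
  unfold pd
  simp

theorem pd_smooth {f : V → ℝ} (hf : ContDiff ℝ ∞ f) (j : Fin 3) : ContDiff ℝ ∞ (pd j f) := by
  unfold pd
  exact (hf.fderiv_right (m := ∞) (by simp)).clm_apply contDiff_const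

theorem smooth_diff {f : V → ℝ} (hf : ContDiff ℝ ∞ f) : Differentiable ℝ f := hf.differentiable (by simp)

theorem lap_mul {f g : V → ℝ} (hf : ContDiff ℝ ∞ f) (hg : ContDiff ℝ ∞ g) (z : V) :
    lap (fun y => f y * g y) z = lap f z * g z + 2 * ∑ j, pd j f z * pd j g z + f z * lap g z := by
  unfold lap
  rw [Finset.sum_mul, Finset.mul_sum, Finset.mul_sum, ← Finset.sum_add_distrib, ← Finset.sum_add_distrib]
  apply Finset.sum_congr rfl
  intro j _
  have h1 : pd j (fun y => f y * g y) = fun y => pd j f y * g y + f y * pd j g y := by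
    funext y
    exact pd_mul (smooth_diff hf y) (smooth_diff hg y) j
  have hpf := smooth_diff (pd_smooth hf j)
  have hpg := smooth_diff (pd_smooth hg j)
  have hf' := smooth_diff hf
  have hg' := smooth_diff hg
  rw [h1, pd_add (f := fun y => pd j f y * g y) (g := fun y => f y * pd j g y) ((hpf z).mul (hg' z)) ((hf' z).mul (hpg z)),
    pd_mul (hpf z) (hg' z), pd_mul (hf' z) (hpg z)]
  ring

/-! ### the kernel -/

/-- `|x|²` -/
def qq (x : V) : ℝ := ∑ i, x i ^ 2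

/-- the kernel -/
def psi (N : ℝ) (x : V) : ℝ := (√N ^ 3)⁻¹ * Real.exp (-(qq x) / (4 * N))

theorem qq_nonneg (x : V) : 0 ≤ qq x := Finset.sum_nonneg fun i _ => sq_nonneg _

theorem le_qq (x : V) (i : Fin 3) : x i ^ 2 ≤ qq x :=
  Finset.single_le_sum (f := fun i => x i ^ 2) (fun i _ => sq_nonneg _) (Finset.mem_univ i)

theorem abs_le_sqrt_qq (x : V) (i : Fin 3) : |x i| ≤ √(qq x) := by
  apply Real.le_sqrt_of_sq_le
  rw [sq_abs]
  exact le_qq x i

theorem norm_le_sqrt_qq (x : V) : ‖x‖ ≤ √(qq x) := by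
  rw [pi_norm_le_iff_of_nonneg (Real.sqrt_nonneg _)]
  exact fun i => abs_le_sqrt_qq x i

theorem qq_le (x : V) : qq x ≤ 3 * ‖x‖ ^ 2 := by
  unfold qq
  have h : ∀ i ∈ (Finset.univ : Finset (Fin 3)), x i ^ 2 ≤ ‖x‖ ^ 2 := by
    intro i _
    rw [← sq_abs (x i)]
    exact pow_le_pow_left₀ (abs_nonneg _) (norm_le_pi_norm x i) 2
  refine (Finset.sum_le_card_nsmul _ _ _ h).trans ?_
  simp

theorem psi_nonneg (N : ℝ) (x : V) : 0 ≤ psi N x := by
  unfold psi
  positivity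

theorem hasFDerivAt_qq (x : V) :
    HasFDerivAt qq (∑ i, (2 * x i) • (ContinuousLinearMap.proj i : V →L[ℝ] ℝ)) x := by
  unfold qq
  apply HasFDerivAt.fun_sum
  intro i _
  have h := ((hasFDerivAt_apply (𝕜 := ℝ) i x).pow 2)
  simpa using h

theorem smooth_qq : ContDiff ℝ ∞ qq := by
  unfold qq
  fun_prop

theorem smooth_psi (N : ℝ) (a : V) : ContDiff ℝ ∞ (fun z => psi N (z - a)) := by
  unfold psi
  have := smooth_qq
  fun_prop

theorem pd_psi (N : ℝ) (a z : V) (j : Fin 3) :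
    pd j (fun z => psi N (z - a)) z = -((z j - a j) / (2 * N)) * psi N (z - a) := by
  have h1 : HasFDerivAt (fun z => qq (z - a))
      (∑ i, (2 * (z - a) i) • (ContinuousLinearMap.proj i : V →L[ℝ] ℝ)) z := by
    have := (hasFDerivAt_qq (z - a)).comp z ((hasFDerivAt_id z).sub_const a)
    simpa [Function.comp_def] using this
  have h2 : HasFDerivAt (fun z => -(qq (z - a)) / (4 * N)) (-(4 * N)⁻¹ •
      (∑ i, (2 * (z - a) i) • (ContinuousLinearMap.proj i : V →L[ℝ] ℝ))) z := by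
    have := h1.const_smul (-(4 * N)⁻¹)
    refine this.congr_of_eventuallyEq (Filter.Eventually.of_forall fun y => ?_)
    simp only [smul_eq_mul]
    rw [neg_div, div_eq_inv_mul]
    simp
  have h3 := (h2.exp).const_mul ((√N ^ 3)⁻¹)
  unfold psi
  rw [pd_of h3 j]
  simp only [ContinuousLinearMap.smul_apply, ContinuousLinearMap.sum_apply, ContinuousLinearMap.neg_apply,
    ContinuousLinearMap.proj_apply, smul_eq_mul, Pi.single_apply, Pi.sub_apply, mul_ite, mul_one, mul_zero,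
    Finset.sum_ite_eq', Finset.mem_univ, if_true, Finset.sum_ite_eq]
  ring

theorem pd_coord (N : ℝ) (a z : V) (j : Fin 3) :
    pd j (fun z : V => -((z j - a j) / (2 * N))) z = -(1 / (2 * N)) := by
  have h1 : HasFDerivAt (fun z : V => z j - a j) (ContinuousLinearMap.proj j : V →L[ℝ] ℝ) z :=
    (hasFDerivAt_apply (𝕜 := ℝ) j z).sub_const _
  have h2 := h1.const_mul (-(2 * N)⁻¹)
  have h3 : (fun z : V => -((z j - a j) / (2 * N))) = fun z => -(2 * N)⁻¹ * (z j - a j) := by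
    funext y
    rw [div_eq_mul_inv]
    ring
  rw [h3, pd_of h2 j]
  simp

theorem lap_psi (N : ℝ) (a z : V) :
    lap (fun z => psi N (z - a)) z = (-(3 / (2 * N)) + qq (z - a) / (4 * N ^ 2)) * psi N (z - a) := by
  unfold lap
  have h : ∀ j : Fin 3, pd j (pd j (fun z => psi N (z - a))) z =
      (-(1 / (2 * N)) + (z j - a j) ^ 2 / (4 * N ^ 2)) * psi N (z - a) := by
    intro j
    have h1 : pd j (fun z => psi N (z - a)) = fun z => -((z j - a j) / (2 * N)) * psi N (z - a) := by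
      funext y
      exact pd_psi N a y j
    have hd : DifferentiableAt ℝ (fun z : V => -((z j - a j) / (2 * N))) z := by
      fun_prop
    rw [h1, pd_mul (f := fun z : V => -((z j - a j) / (2 * N))) (g := fun z => psi N (z - a)) hd
      (smooth_diff (smooth_psi N a) z), pd_coord, pd_psi]
    ring
  simp only [h]
  rw [← Finset.sum_mul]
  congr 1
  rw [Finset.sum_add_distrib]
  unfold qq
  rw [Finset.sum_div]
  simp only [Pi.sub_apply, Finset.sum_const, Finset.card_univ, Fintype.card_fin, nsmul_eq_mul]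
  push_cast
  ring

theorem hasDerivAt_psi (N : ℝ) (hN : 0 < N) (x : V) :
    HasDerivAt (fun N => psi N x) ((-(3 / (2 * N)) + qq x / (4 * N ^ 2)) * psi N x) N := by
  have hw : 0 < √N := Real.sqrt_pos.2 hN
  have h1 : HasDerivAt (fun N : ℝ => √N) (1 / (2 * √N)) N := Real.hasDerivAt_sqrt hN.ne'
  have h2 : HasDerivAt (fun N : ℝ => (√N ^ 3)⁻¹) (-(3 * √N ^ 2 * (1 / (2 * √N))) / (√N ^ 3) ^ 2) N := by
    have h3 : HasDerivAt (fun N : ℝ => √N ^ 3) (3 * √N ^ 2 * (1 / (2 * √N))) N := by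
      exact (h1.pow 3).congr_deriv (by norm_num)
    have h4 := h3.inv (by positivity)
    exact h4
  have h3 : HasDerivAt (fun N : ℝ => -(qq x) / (4 * N)) (qq x / (4 * N ^ 2)) N := by
    have h4 : HasDerivAt (fun N : ℝ => (4 * N)⁻¹) (-(4 * 1) / (4 * N) ^ 2) N :=
      ((hasDerivAt_id N).const_mul 4).inv (by simp; exact hN.ne')
    have h5 := h4.const_mul (-(qq x))
    refine (h5.congr_deriv ?_).congr_of_eventuallyEq (Filter.Eventually.of_forall fun y => ?_)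
    · field_simp
    · show -qq x / (4 * y) = -qq x * (4 * y)⁻¹
      rw [div_eq_mul_inv]
  have h4 := h2.mul h3.exp
  unfold psi
  refine h4.congr_deriv ?_
  have hNw : N = √N ^ 2 := (Real.sq_sqrt hN.le).symm
  have e1 : -(3 * √N ^ 2 * (1 / (2 * √N))) / (√N ^ 3) ^ 2 = -(3 / (2 * N)) * (√N ^ 3)⁻¹ := by
    have : -(3 / (2 * N)) = -(3 / (2 * √N ^ 2)) := by rw [← hNw]
    rw [this]
    field_simp
  rw [e1]
  ring

/-! ### bounds -/

theorem exp_odd (y : ℝ) (hy : 0 ≤ y) : y * Real.exp (-y ^ 2) ≤ 1 ∧ y ^ 3 * Real.exp (-y ^ 2) ≤ 3 / 2 ∧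
    y ^ 5 * Real.exp (-y ^ 2) ≤ 4 := by
  have h1 : 1 ≤ Real.exp (y ^ 2) := Real.one_le_exp (by positivity)
  have h2 : y ^ 2 ≤ Real.exp (y ^ 2) := by
    have := Real.add_one_le_exp (y ^ 2)
    linarith
  have h3 : (y ^ 2) ^ 2 / 2 ≤ Real.exp (y ^ 2) := by
    have := Real.pow_div_factorial_le_exp (y ^ 2) (by positivity) 2
    simpa [Nat.factorial] using this
  have h4 : (y ^ 2) ^ 3 / 6 ≤ Real.exp (y ^ 2) := by
    have := Real.pow_div_factorial_le_exp (y ^ 2) (by positivity) 3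
    simpa [Nat.factorial] using this
  have he : Real.exp (-y ^ 2) = (Real.exp (y ^ 2))⁻¹ := Real.exp_neg _
  have hp := Real.exp_pos (y ^ 2)
  rw [he]
  refine ⟨?_, ?_, ?_⟩
  · rw [← div_eq_mul_inv, div_le_one hp]
    nlinarith [sq_nonneg (y - 1)]
  · rw [← div_eq_mul_inv, div_le_iff₀ hp]
    nlinarith [mul_nonneg (sq_nonneg y) (sq_nonneg (y - 1))]
  · rw [← div_eq_mul_inv, div_le_iff₀ hp]
    nlinarith [mul_nonneg (sq_nonneg (y ^ 2)) (sq_nonneg (y - 1))]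

theorem b1 (w Y L : ℝ) (hw : 0 < w) (hY : 0 ≤ Y) (hL : 0 < L) (h : L ≤ w ∨ L ≤ Y) :
    (w ^ 3)⁻¹ * Real.exp (-(Y ^ 2) / (4 * w ^ 2)) ≤ 12 * (L ^ 3)⁻¹ := by
  have hle1 : Real.exp (-(Y ^ 2) / (4 * w ^ 2)) ≤ 1 := by
    rw [Real.exp_le_one_iff]
    rw [neg_div, neg_nonpos]
    positivity
  rcases h with h | h
  · have h1 : (w ^ 3)⁻¹ ≤ (L ^ 3)⁻¹ := inv_anti₀ (by positivity) (pow_le_pow_left₀ hL.le h 3)
    have h2 : 0 < (w ^ 3)⁻¹ := by positivity
    nlinarith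
  · have hY0 : 0 < Y := by linarith
    obtain ⟨-, h3, -⟩ := exp_odd (Y / (2 * w)) (by positivity)
    have e1 : -(Y ^ 2) / (4 * w ^ 2) = -(Y / (2 * w)) ^ 2 := by
      field_simp
      ring
    have e2 : (w ^ 3)⁻¹ = 8 * (Y / (2 * w)) ^ 3 * (Y ^ 3)⁻¹ := by
      field_simp
      ring
    rw [e1, e2]
    have h1 : (Y ^ 3)⁻¹ ≤ (L ^ 3)⁻¹ := inv_anti₀ (by positivity) (pow_le_pow_left₀ hL.le h 3)
    have h2 : 0 < (Y ^ 3)⁻¹ := by positivity
    calc 8 * (Y / (2 * w)) ^ 3 * (Y ^ 3)⁻¹ * Real.exp (-(Y / (2 * w)) ^ 2)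
        = 8 * ((Y / (2 * w)) ^ 3 * Real.exp (-(Y / (2 * w)) ^ 2)) * (Y ^ 3)⁻¹ := by ring
      _ ≤ 8 * (3 / 2) * (L ^ 3)⁻¹ := by gcongr
      _ = 12 * (L ^ 3)⁻¹ := by ring

theorem b2 (w Y L : ℝ) (hw : 0 < w) (hY : 0 ≤ Y) (hL : 0 < L) (h : L ≤ w ∨ L ≤ Y) :
    Y / (2 * w ^ 2) * ((w ^ 3)⁻¹ * Real.exp (-(Y ^ 2) / (4 * w ^ 2))) ≤ 64 * (L ^ 4)⁻¹ := by
  obtain ⟨h5, h6, h7⟩ := exp_odd (Y / (2 * w)) (by positivity)
  have e1 : -(Y ^ 2) / (4 * w ^ 2) = -(Y / (2 * w)) ^ 2 := by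
    field_simp
    ring
  rw [e1]
  rcases h with h | h
  · have h1 : (w ^ 4)⁻¹ ≤ (L ^ 4)⁻¹ := inv_anti₀ (by positivity) (pow_le_pow_left₀ hL.le h 4)
    have h2 : 0 < (w ^ 4)⁻¹ := by positivity
    calc Y / (2 * w ^ 2) * ((w ^ 3)⁻¹ * Real.exp (-(Y / (2 * w)) ^ 2))
        = ((Y / (2 * w)) * Real.exp (-(Y / (2 * w)) ^ 2)) * (w ^ 4)⁻¹ := by
          field_simp
      _ ≤ 1 * (L ^ 4)⁻¹ := by gcongr
      _ ≤ 64 * (L ^ 4)⁻¹ := by
          have : 0 < (L ^ 4)⁻¹ := by positivity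
          linarith
  · have hY0 : 0 < Y := by linarith
    have h1 : (Y ^ 4)⁻¹ ≤ (L ^ 4)⁻¹ := inv_anti₀ (by positivity) (pow_le_pow_left₀ hL.le h 4)
    have h2 : 0 < (Y ^ 4)⁻¹ := by positivity
    calc Y / (2 * w ^ 2) * ((w ^ 3)⁻¹ * Real.exp (-(Y / (2 * w)) ^ 2))
        = 16 * ((Y / (2 * w)) ^ 5 * Real.exp (-(Y / (2 * w)) ^ 2)) * (Y ^ 4)⁻¹ := by
          field_simp
          ring
      _ ≤ 16 * 4 * (L ^ 4)⁻¹ := by gcongr
      _ = 64 * (L ^ 4)⁻¹ := by ring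

theorem psi_le (N : ℝ) (hN : 0 < N) (x : V) (L : ℝ) (hL : 0 < L) (h : L ^ 2 ≤ N ∨ L ≤ ‖x‖) :
    psi N x ≤ 12 * (L ^ 3)⁻¹ := by
  have hw : 0 < √N := Real.sqrt_pos.2 hN
  have h1 := b1 (√N) (√(qq x)) L hw (Real.sqrt_nonneg _) hL (by
    rcases h with h | h
    · exact Or.inl (Real.le_sqrt_of_sq_le h)
    · exact Or.inr (h.trans (norm_le_sqrt_qq x)))
  rw [Real.sq_sqrt (qq_nonneg x), Real.sq_sqrt hN.le] at h1
  exact h1

theorem pd_psi_le (N : ℝ) (hN : 0 < N) (a z : V) (j : Fin 3) (L : ℝ) (hL : 0 < L)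
    (h : L ^ 2 ≤ N ∨ L ≤ ‖z - a‖) :
    |pd j (fun z => psi N (z - a)) z| ≤ 64 * (L ^ 4)⁻¹ := by
  have hw : 0 < √N := Real.sqrt_pos.2 hN
  have h1 := b2 (√N) (√(qq (z - a))) L hw (Real.sqrt_nonneg _) hL (by
    rcases h with h | h
    · exact Or.inl (Real.le_sqrt_of_sq_le h)
    · exact Or.inr (h.trans (norm_le_sqrt_qq _)))
  rw [Real.sq_sqrt (qq_nonneg _), Real.sq_sqrt hN.le] at h1
  rw [pd_psi, abs_mul, abs_neg, abs_div, abs_of_pos (show 0 < 2 * N by positivity), abs_of_nonneg (psi_nonneg _ _)]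
  refine le_trans ?_ h1
  apply mul_le_mul_of_nonneg_right _ (psi_nonneg N (z - a))
  apply div_le_div_of_nonneg_right _ (by positivity)
  exact abs_le_sqrt_qq (z - a) j

/-! ### the integral -/

theorem psi_prod (N : ℝ) (x : V) : psi N x = (√N ^ 3)⁻¹ * ∏ i, Real.exp (-(4 * N)⁻¹ * (x i) ^ 2) := by
  unfold psi qq
  rw [← Real.exp_sum]
  congr 2
  rw [← Finset.mul_sum]
  rw [neg_div, div_eq_inv_mul]
  ring

theorem psi_integrable (N : ℝ) (hN : 0 < N) : Integrable (fun x : V => psi N x) := by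
  simp only [psi_prod]
  apply Integrable.const_mul
  apply MeasureTheory.Integrable.fintype_prod (f := fun (_ : Fin 3) (y : ℝ) => Real.exp (-(4 * N)⁻¹ * y ^ 2))
  intro i
  exact integrable_exp_neg_mul_sq (by positivity)

theorem psi_integral (N : ℝ) (hN : 0 < N) : ∫ x : V, psi N x = √(4 * Real.pi) ^ 3 := by
  simp only [psi_prod]
  rw [integral_const_mul]
  have h := MeasureTheory.integral_fintype_prod_volume_eq_prod (ι := Fin 3) (fun (_ : Fin 3) (y : ℝ) => Real.exp (-(4 * N)⁻¹ * y ^ 2))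
  rw [h]
  rw [Finset.prod_const, Finset.card_univ, Fintype.card_fin, integral_gaussian]
  have hw : 0 < √N := Real.sqrt_pos.2 hN
  rw [← inv_pow, ← mul_pow]
  congr 1
  have e : Real.pi / (4 * N)⁻¹ = (4 * Real.pi) * N := by
    field_simp
  rw [e, Real.sqrt_mul (by positivity)]
  field_simp

end

end W918.MD
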